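import Pool.Agent.R639.S7.Terms

/-!
# The interval `[V(S₇), V(S₇⁰)]` has the cardinality of the continuum

For `k = n + 2 ≥ 2` take the variables `x_{i,j}` with `i, j < k`, and let `s` be the sum of all
column products `x_{0,j}⋯x_{k-1,j}` and of all row products `x_{i,0}⋯x_{i,k-1}` with `i < k - 1`.
The grid identity is `s ≈ s + x_{k-1,0}⋯x_{k-1,k-1}`. It holds in `S₇`. For `d ≥ 2` the syntactic
quotient of the semiring of nonempty sets of nonempty multisets over the `d × d` grid by the set of
all columns and of all rows but the last satisfies all identities of `S₇⁰` and the grid identities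
with `k > d` or `2k ≤ d`, but not the one with `k = d`. With `k = 2, 4, 8, …` the grid identities
therefore define `2^ℵ₀` varieties between `V(S₇)` and `V(S₇⁰)`.
-/

set_option autoImplicit false

namespace Pool.Agent.Results.MP_9c5c66_al.IntervalContinuum

open Pool.Agent.R639.S7

deriving instance Countable for Tm

/-- sizes of the grids: `size t + 2 = 2 ^ (t + 1)` -/
def size (t : ℕ) : ℕ := 2 ^ (t + 1) - 2

theorem size_add (t : ℕ) : size t + 2 = 2 ^ (t + 1) := by
  unfold size
  have : 2 ≤ 2 ^ (t + 1) := by
    have := Nat.pow_le_pow_right (n := 2) (by norm_num) (show 1 ≤ t + 1 by omega)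
    simpa using this
  omega

theorem size_lt {s t : ℕ} (h : s < t) : 2 * (size s + 2) ≤ size t + 2 := by
  rw [size_add, size_add, ← Nat.pow_succ']
  exact Nat.pow_le_pow_right (by norm_num) (by omega)

/-- the variety defined by the identities of `S₇⁰` and the grid identities with index in `A` -/
def VA (A : Set ℕ) : Set AnyAlg := Pool.Agent.R639.S7.Mod ({e | Holds S70.alg e} ∪ {e | ∃ t ∈ A, e = idT (size t)})

theorem VA_isVariety (A : Set ℕ) : IsVariety (VA A) := ⟨_, rfl⟩

theorem le_VA (A : Set ℕ) : V S7.alg ⊆ VA A := by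
  intro T hT
  apply hT _ (VA_isVariety A)
  rintro e (he | ⟨t, _, rfl⟩)
  · exact holds_S7_of_S70 e he
  · exact idT_S7 _

theorem VA_le (A : Set ℕ) : VA A ⊆ V S70.alg := by
  intro T hT
  rw [mem_V]
  intro e he
  exact hT e (Or.inl he)

/-- the syntactic quotient for the grid of size `size t + 2` -/
def TA (t : ℕ) : AnyAlg :=
  ⟨_, QA (lines (Fin.last (size t + 1) : Fin (size t + 2)))⟩

theorem TA_mem (A : Set ℕ) (t : ℕ) : TA t ∈ VA A ↔ t ∉ A := by
  constructor
  · intro h ht
    exact idT_fails (size t) (h (idT (size t)) (Or.inr ⟨t, ht, rfl⟩))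
  · rintro ht e (he | ⟨s, hs, rfl⟩)
    · have h1 : TA t ∈ V S70.alg := QA_mem_V (Fin.last (size t + 1)) 0 (by
        intro h
        have := congrArg Fin.val h
        simp at this)
      exact (mem_V _ _).1 h1 e he
    · have hst : s ≠ t := by rintro rfl; exact ht hs
      apply idT_QA
      rw [Fintype.card_fin]
      rcases lt_or_gt_of_ne hst with h | h
      · left
        have := size_lt h
        omega
      · right
        have := size_lt h
        omega

theorem VA_inj (A A' : Set ℕ) (h : VA A = VA A') : A = A' := by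
  ext t
  have h1 := TA_mem A t
  have h2 := TA_mem A' t
  rw [h] at h1
  constructor
  · intro ht; by_contra hc; exact (h1.1 (h2.2 hc)) ht
  · intro ht; by_contra hc; exact (h2.1 (h1.2 hc)) ht

/-- **The interval `[V(S₇), V(S₇⁰)]` in the lattice of varieties of `{+, ·}`-algebras has
cardinality `2^ℵ₀`.** -/
theorem result :
    Cardinal.mk {P : Set AnyAlg // IsVariety P ∧ V S7.alg ⊆ P ∧ P ⊆ V S70.alg} =
      Cardinal.continuum := by
  apply le_antisymm
  · let f : {P : Set AnyAlg // IsVariety P ∧ V S7.alg ⊆ P ∧ P ⊆ V S70.alg} →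
        ULift.{1} (Set (Tm × Tm)) := fun P => ⟨{e | ∀ T ∈ P.1, Holds T.2 e}⟩
    have hf : Function.Injective f := by
      rintro ⟨P, ⟨D, hD⟩, hP⟩ ⟨P', ⟨D', hD'⟩, hP'⟩ h
      have h' : {e : Tm × Tm | ∀ T ∈ P, Holds T.2 e} = {e | ∀ T ∈ P', Holds T.2 e} :=
        congrArg ULift.down h
      apply Subtype.ext
      show P = P'
      have key : ∀ (Q : Set AnyAlg) (E : Set (Tm × Tm)), Q = Pool.Agent.R639.S7.Mod E →
          Q = Pool.Agent.R639.S7.Mod {e | ∀ T ∈ Q, Holds T.2 e} := by
        intro Q E hQ
        apply Set.Subset.antisymm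
        · intro T hT e he
          exact he T hT
        · intro T hT
          rw [hQ]
          intro e he
          apply hT e
          intro T' hT'
          rw [hQ] at hT'
          exact hT' e he
      rw [key P D hD, key P' D' hD', h']
    have h1 := Cardinal.mk_le_of_injective hf
    refine h1.trans ?_
    rw [Cardinal.mk_uLift, Cardinal.mk_set]
    have h2 : Cardinal.mk (Tm × Tm) ≤ Cardinal.aleph0 := Cardinal.mk_le_aleph0
    have h3 : (2 : Cardinal) ^ Cardinal.mk (Tm × Tm) ≤ Cardinal.continuum := by
      rw [← Cardinal.two_power_aleph0]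
      exact Cardinal.power_le_power_left two_ne_zero h2
    have h4 := Cardinal.lift_le.{1}.2 h3
    rwa [Cardinal.lift_continuum] at h4
  · let g : ULift.{1} (Set ℕ) →
        {P : Set AnyAlg // IsVariety P ∧ V S7.alg ⊆ P ∧ P ⊆ V S70.alg} :=
      fun A => ⟨VA A.down, VA_isVariety _, le_VA _, VA_le _⟩
    have hg : Function.Injective g := by
      intro A A' h
      apply ULift.ext
      exact VA_inj _ _ (congrArg Subtype.val h)
    have h1 := Cardinal.mk_le_of_injective hg
    rw [Cardinal.mk_uLift, Cardinal.mk_set, Cardinal.mk_nat, Cardinal.two_power_aleph0,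
      Cardinal.lift_continuum] at h1
    exact h1

end Pool.Agent.Results.MP_9c5c66_al.IntervalContinuum
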